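import Mathlib
import Pool.Agent.R246.GF.Stm

namespace Pool.Agent.R341.GF
open Matrix Pool.Agent.R246.GF Module

theorem svd_lin {E F : Type*} [NormedAddCommGroup E] [InnerProductSpace ℝ E] [FiniteDimensional ℝ E]
    [NormedAddCommGroup F] [InnerProductSpace ℝ F] [FiniteDimensional ℝ F] (k l : ℕ)
    (hk : finrank ℝ E = k) (hl : finrank ℝ F = l) (hkl : k ≤ l) (T : E →ₗ[ℝ] F) :
    ∃ (e : OrthonormalBasis (Fin k) ℝ E) (f : Fin k → F) (t : Fin k → ℝ),
      Orthonormal ℝ f ∧ ∀ a, T (e a) = t a • f a := by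
  classical
  have hsym : (LinearMap.adjoint T ∘ₗ T).IsSymmetric := by
    intro x y
    simp only [LinearMap.comp_apply]
    rw [LinearMap.adjoint_inner_left, LinearMap.adjoint_inner_right]
  set e := hsym.eigenvectorBasis hk with he
  have hTe : ∀ a b, a ≠ b → inner ℝ (T (e a)) (T (e b)) = 0 := by
    intro a b hab
    have h1 : inner ℝ ((LinearMap.adjoint T ∘ₗ T) (e a)) (e b) = inner ℝ (T (e a)) (T (e b)) := by
      simp only [LinearMap.comp_apply]
      rw [LinearMap.adjoint_inner_left]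
    rw [← h1, he, hsym.apply_eigenvectorBasis, inner_smul_left]
    have := (hsym.eigenvectorBasis hk).orthonormal.2 hab
    rw [this, mul_zero]
  -- the partial orthonormal family
  let v : Fin k ⊕ Fin (l - k) → F := Sum.elim (fun a => (‖T (e a)‖)⁻¹ • T (e a)) (fun _ => 0)
  let s : Set (Fin k ⊕ Fin (l - k)) := {i | ∃ a, i = Sum.inl a ∧ T (e a) ≠ 0}
  have hv : Orthonormal ℝ (s.domRestrict v) := by
    constructor
    · rintro ⟨i, a, rfl, ha⟩
      simp only [Set.domRestrict_apply, v, Sum.elim_inl]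
      rw [norm_smul, norm_inv, norm_norm]
      exact inv_mul_cancel₀ (norm_ne_zero_iff.mpr ha)
    · rintro ⟨i, a, rfl, ha⟩ ⟨j, b, rfl, hb⟩ hij
      simp only [Set.domRestrict_apply, v, Sum.elim_inl]
      rw [inner_smul_left, inner_smul_right, hTe a b ?_]
      · simp
      · rintro rfl
        exact hij rfl
  obtain ⟨b, hb⟩ := hv.exists_orthonormalBasis_extension_of_card_eq (by
    rw [hl, Fintype.card_sum, Fintype.card_fin, Fintype.card_fin]; omega)
  refine ⟨e, fun a => b (Sum.inl a), fun a => ‖T (e a)‖, ?_, ?_⟩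
  · exact b.orthonormal.comp _ Sum.inl_injective
  · intro a
    show T (e a) = ‖T (e a)‖ • b (Sum.inl a)
    by_cases ha : T (e a) = 0
    · rw [ha, norm_zero, zero_smul]
    · rw [hb (Sum.inl a) ⟨a, rfl, ha⟩]
      simp only [v, Sum.elim_inl]
      rw [smul_smul, mul_inv_cancel₀ (norm_ne_zero_iff.mpr ha), one_smul]

/-- the case `k ≤ n - k` -/
theorem svd_half (n k l : ℕ) (P : Matrix (Fin n) (Fin n) ℝ) (hPt : Pᵀ = P) (hPP : P * P = P)
    (htr : P.trace = k) (hkl : k + l = n) (hle : k ≤ l) (Y : Matrix (Fin n) (Fin n) ℝ)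
    (hY : (1 - P) * Y * P = Y) :
    ∃ (e f : Fin k → Fin n → ℝ) (t : Fin k → ℝ),
      (∀ a b, e a ⬝ᵥ e b = if a = b then 1 else 0) ∧
      (∀ a b, f a ⬝ᵥ f b = if a = b then 1 else 0) ∧ (∀ a b, e a ⬝ᵥ f b = 0) ∧
      (∀ a, P *ᵥ e a = e a) ∧ (∀ a, P *ᵥ f a = 0) ∧ Y = ∑ a, t a • vecMulVec (f a) (e a) := by
  classical
  set A : EuclideanSpace ℝ (Fin n) →ₗ[ℝ] EuclideanSpace ℝ (Fin n) := Matrix.toEuclideanLin P with hA
  have hPY : P * Y = 0 := by
    rw [← hY, ← Matrix.mul_assoc, ← Matrix.mul_assoc, Matrix.mul_sub, Matrix.mul_one, hPP, sub_self,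
      Matrix.zero_mul, Matrix.zero_mul]
  have hYP : Y * P = Y := by
    conv_lhs => rw [← hY]
    rw [Matrix.mul_assoc, hPP, hY]
  have hAA : IsIdempotentElem A := by
    show A ∘ₗ A = A
    ext1 x
    apply (WithLp.ofLp_injective 2)
    simp only [LinearMap.comp_apply, hA, ofLp_toEuclideanLin_apply, Matrix.mulVec_mulVec, hPP]
  have htrA : LinearMap.trace ℝ _ A = k := by
    rw [← htr, hA, toEuclideanLin_eq_toLin_orthonormal, LinearMap.trace_eq_matrix_trace ℝ
      (EuclideanSpace.basisFun (Fin n) ℝ).toBasis, LinearMap.toMatrix_toLin]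
  have hE : finrank ℝ (LinearMap.range A) = k := by
    have := (LinearMap.IsIdempotentElem.isProj_range A hAA).trace
    rw [htrA] at this
    exact_mod_cast this.symm
  have hF : finrank ℝ (LinearMap.ker A) = l := by
    have := LinearMap.finrank_range_add_finrank_ker A
    rw [hE, finrank_euclideanSpace, Fintype.card_fin] at this
    omega
  let T : LinearMap.range A →ₗ[ℝ] LinearMap.ker A :=
    LinearMap.codRestrict (LinearMap.ker A) ((Matrix.toEuclideanLin Y) ∘ₗ (LinearMap.range A).subtype)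
      (by
        intro x
        rw [LinearMap.mem_ker]
        apply (WithLp.ofLp_injective 2)
        simp only [LinearMap.comp_apply, hA, ofLp_toEuclideanLin_apply, Matrix.mulVec_mulVec, hPY]
        simp)
  obtain ⟨e, f, t, hf, hT⟩ := svd_lin k l hE hF hle T
  have hin : ∀ x y : EuclideanSpace ℝ (Fin n), x.ofLp ⬝ᵥ y.ofLp = inner ℝ x y := by
    intro x y
    rw [EuclideanSpace.inner_eq_star_dotProduct]
    simp [dotProduct_comm]
  have hAx : ∀ x : EuclideanSpace ℝ (Fin n), (A x).ofLp = P *ᵥ x.ofLp := fun x => rfl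
  have hPe : ∀ a, P *ᵥ (e a : EuclideanSpace ℝ (Fin n)).ofLp = (e a : EuclideanSpace ℝ (Fin n)).ofLp := by
    intro a
    have := (LinearMap.IsIdempotentElem.isProj_range A hAA).map_id (e a) (e a).2
    rw [← hAx, this]
  have hPf : ∀ a, P *ᵥ (f a : EuclideanSpace ℝ (Fin n)).ofLp = 0 := by
    intro a
    have := (f a).2
    rw [LinearMap.mem_ker] at this
    rw [← hAx, this]
    rfl
  refine ⟨fun a => (e a : EuclideanSpace ℝ (Fin n)).ofLp, fun a => (f a : EuclideanSpace ℝ (Fin n)).ofLp,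
    t, ?_, ?_, ?_, hPe, hPf, ?_⟩
  · intro a b
    rw [hin]
    have := orthonormal_iff_ite.mp e.orthonormal a b
    exact this
  · intro a b
    rw [hin]
    have := orthonormal_iff_ite.mp hf a b
    exact this
  · intro a b
    have h1 : (e a : EuclideanSpace ℝ (Fin n)).ofLp ⬝ᵥ (f b : EuclideanSpace ℝ (Fin n)).ofLp =
        (P *ᵥ (e a : EuclideanSpace ℝ (Fin n)).ofLp) ⬝ᵥ (f b : EuclideanSpace ℝ (Fin n)).ofLp := by
      rw [hPe]
    show (e a : EuclideanSpace ℝ (Fin n)).ofLp ⬝ᵥ (f b : EuclideanSpace ℝ (Fin n)).ofLp = 0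
    rw [h1, dotProduct_comm, Matrix.dotProduct_mulVec, ← Matrix.mulVec_transpose, hPt, hPf,
      zero_dotProduct]
  · -- the matrix identity
    have hTe : ∀ a, Y *ᵥ (e a : EuclideanSpace ℝ (Fin n)).ofLp =
        t a • (f a : EuclideanSpace ℝ (Fin n)).ofLp := by
      intro a
      have h1 := congrArg (fun z : LinearMap.ker A => (z : EuclideanSpace ℝ (Fin n)).ofLp) (hT a)
      simpa [T] using h1
    have key : ∀ x : Fin n → ℝ, Y *ᵥ x = (∑ a, t a • vecMulVec (f a : EuclideanSpace ℝ (Fin n)).ofLp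
        (e a : EuclideanSpace ℝ (Fin n)).ofLp) *ᵥ x := by
      intro x
      have h1 := e.sum_repr' ⟨A (WithLp.toLp 2 x), LinearMap.mem_range_self A _⟩
      have h2 := congrArg (fun z : LinearMap.range A => (z : EuclideanSpace ℝ (Fin n)).ofLp) h1
      have h3 : P *ᵥ x = ∑ a, ((e a : EuclideanSpace ℝ (Fin n)).ofLp ⬝ᵥ x) •
          (e a : EuclideanSpace ℝ (Fin n)).ofLp := by
        have h4 : P *ᵥ x = (A (WithLp.toLp 2 x)).ofLp := rfl
        rw [h4]
        have h5 : (A (WithLp.toLp 2 x)).ofLp = ((⟨A (WithLp.toLp 2 x), LinearMap.mem_range_self A _⟩ :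
          LinearMap.range A) : EuclideanSpace ℝ (Fin n)).ofLp := rfl
        rw [h5]
        refine Eq.trans h2.symm ?_
        simp only [Submodule.coe_sum, Submodule.coe_smul, WithLp.ofLp_sum, WithLp.ofLp_smul]
        refine Finset.sum_congr rfl fun a _ => ?_
        congr 1
        have h6 : inner ℝ (e a) (⟨A (WithLp.toLp 2 x), LinearMap.mem_range_self A _⟩ :
            LinearMap.range A) = inner ℝ (e a : EuclideanSpace ℝ (Fin n)) (A (WithLp.toLp 2 x)) := rfl
        rw [h6, ← hin, hAx]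
        show (e a : EuclideanSpace ℝ (Fin n)).ofLp ⬝ᵥ (P *ᵥ x) = _
        rw [Matrix.dotProduct_mulVec, ← Matrix.mulVec_transpose, hPt, hPe]
      have h4 : Y *ᵥ x = Y *ᵥ (P *ᵥ x) := by rw [Matrix.mulVec_mulVec, hYP]
      rw [h4, h3, Matrix.mulVec_sum, Matrix.sum_mulVec]
      refine Finset.sum_congr rfl fun a _ => ?_
      rw [Matrix.mulVec_smul, hTe, Matrix.smul_mulVec, Matrix.vecMulVec_mulVec]
      ext i
      simp only [Pi.smul_apply, smul_eq_mul, MulOpposite.smul_eq_mul_unop, MulOpposite.unop_op]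
      ring
    ext i j
    have := congrFun (key (Pi.single j 1)) i
    rw [Matrix.mulVec_single_one, Matrix.mulVec_single_one] at this
    exact this

/-- GF-SVD -/
theorem svd : SSVD := by
  intro n k P hP hkn Y hY
  obtain ⟨hPt, hPP, htr⟩ := hP
  by_cases h : k ≤ n - k
  · obtain ⟨e, f, t, h1, h2, h3, h4, h5, h6⟩ := svd_half n k (n - k) (M P) hPt hPP htr (by omega) h Y hY
    have hm : min k (n - k) = k := min_eq_left h
    rw [hm]
    exact ⟨e, f, t, ⟨h1, h2, h3⟩, h4, h5, h6⟩
  · have h' : n - k ≤ k := by omega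
    obtain ⟨f, e, t, h1, h2, h3, h4, h5, h6⟩ := svd_half n (n - k) k (1 - M P)
      (by rw [Matrix.transpose_sub, Matrix.transpose_one, hPt])
      (by rw [Matrix.sub_mul, Matrix.one_mul, Matrix.mul_sub, Matrix.mul_one, hPP, sub_self, sub_zero])
      (by rw [Matrix.trace_sub, Matrix.trace_one, htr, Fintype.card_fin, Nat.cast_sub hkn])
      (by omega) h' Yᵀ (by
        rw [sub_sub_cancel]
        have := congrArg Matrix.transpose hY
        rw [Matrix.transpose_mul, Matrix.transpose_mul, Matrix.transpose_sub, Matrix.transpose_one,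
          hPt] at this
        rw [Matrix.mul_assoc]
        exact this)
    have hm : min k (n - k) = n - k := min_eq_right h'
    rw [hm]
    refine ⟨e, f, t, ⟨h2, h1, fun a b => ?_⟩, fun a => ?_, fun a => ?_, ?_⟩
    · rw [dotProduct_comm]; exact h3 b a
    · have := h5 a
      rw [Matrix.sub_mulVec, Matrix.one_mulVec, sub_eq_zero] at this
      exact this.symm
    · have := h4 a
      rw [Matrix.sub_mulVec, Matrix.one_mulVec, sub_eq_self] at this
      exact this
    · have := congrArg Matrix.transpose h6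
      rw [Matrix.transpose_transpose, Matrix.transpose_sum] at this
      rw [this]
      refine Finset.sum_congr rfl fun a _ => ?_
      rw [Matrix.transpose_smul, Matrix.transpose_vecMulVec]

end Pool.Agent.R341.GF
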